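import Pool.Agent.W747.RG.Meas

set_option autoImplicit false

open MeasureTheory Filter Topology Function
open scoped ContDiff

namespace Pool.Agent.W747.RG

/-- The limit of `(1/n) log (r ^ n * c)`. -/
lemma tendsto_log_pow {r c : ℝ} (hr : 0 < r) (hc : 0 < c) :
    Tendsto (fun n : ℕ => Real.log (r ^ n * c) / n) atTop (𝓝 (Real.log r)) := by
  have h1 : Tendsto (fun n : ℕ => Real.log r + Real.log c / n) atTop (𝓝 (Real.log r + 0)) :=
    tendsto_const_nhds.add (tendsto_const_div_atTop_nhds_zero_nat _)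
  rw [add_zero] at h1
  refine h1.congr' ?_
  filter_upwards [eventually_ge_atTop 1] with n hn
  have hn' : (n : ℝ) ≠ 0 := by positivity
  rw [Real.log_mul (by positivity) hc.ne', Real.log_pow]
  field_simp

lemma F_fix {z : ℂ} (h : proj z ∈ Fix) : F z = z := by
  rcases h with ⟨h1, h2⟩ | ⟨h1, h2⟩
  · have h1' : Real.sin z.re = 0 := h1
    have h2' : Real.sin z.im = 0 := h2
    apply Complex.ext <;> simp [F, h1', h2']
  · have h1' : Real.cos z.re = 0 := h1
    have h2' : Real.cos z.im = 0 := h2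
    apply Complex.ext <;> simp [F, h1', h2']

lemma G_fix {z : ℂ} (h : proj z ∈ Fix) : G z = z := by
  have := G_F z
  rwa [F_fix h] at this

lemma hasFDerivAt_F' (z : ℂ) : HasFDerivAt F (dFE z : ℂ →L[ℝ] ℂ) z := by
  rw [dFE_coe]; exact hasFDerivAt_F z

lemma hasFDerivAt_G {z : ℂ} (h : proj z ∈ Fix) :
    HasFDerivAt G ((dFE z).symm : ℂ →L[ℝ] ℂ) z := by
  have h1 : HasFDerivAt F (dFE z : ℂ →L[ℝ] ℂ) (G z) := by
    rw [G_fix h]; exact hasFDerivAt_F' z
  exact h1.of_local_left_inverse (contDiff_G.continuous.continuousAt)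
    (Eventually.of_forall fun w => F_G w)

lemma fderiv_F_iter {z : ℂ} (h : proj z ∈ Fix) (n : ℕ) :
    fderiv ℝ (F^[n]) z = (dFE z : ℂ →L[ℝ] ℂ) ^ n :=
  ((hasFDerivAt_F' z).iterate (F_fix h) n).fderiv

lemma fderiv_G_iter {z : ℂ} (h : proj z ∈ Fix) (n : ℕ) :
    fderiv ℝ (G^[n]) z = ((dFE z).symm : ℂ →L[ℝ] ℂ) ^ n :=
  ((hasFDerivAt_G h).iterate (G_fix h) n).fderiv

/-- If `D` multiplies by `r` on the line of `u` (up to norm), growth is `log r`. -/
lemma growth_of {D : ℂ →L[ℝ] ℂ} {r : ℝ} (hr : 0 < r) {V : Set ℂ} (hV : ∀ v ∈ V, D v ∈ V)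
    (hD : ∀ v ∈ V, ‖D v‖ = r * ‖v‖) {u : ℂ} (hu : u ∈ V) (hu0 : u ≠ 0) :
    Tendsto (fun n : ℕ => Real.log ‖(D ^ n) u‖ / n) atTop (𝓝 (Real.log r)) := by
  have h1 : ∀ n : ℕ, (D ^ n) u ∈ V ∧ ‖(D ^ n) u‖ = r ^ n * ‖u‖ := by
    intro n
    induction n with
    | zero => simp [hu]
    | succ n ih =>
      have e : (D ^ (n + 1)) u = D ((D ^ n) u) := by rw [pow_succ']; rfl
      refine ⟨by rw [e]; exact hV _ ih.1, ?_⟩
      rw [e, hD _ ih.1, ih.2]; ring
  simp_rw [fun n => (h1 n).2]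
  exact tendsto_log_pow hr (norm_pos_iff.mpr hu0)

/-- The expansion at the sources. -/
lemma chiPlus_source {z : ℂ} (h1 : Real.cos z.re = 0) (h2 : Real.cos z.im = 0) :
    ∃ (k : ℕ) (V : Fin k → Submodule ℝ ℂ) (χ : Fin k → ℝ),
    IsOseledets F G z V χ ∧ Real.log (5 / 4) = ∑ i, max (χ i) 0 * (Module.finrank ℝ (V i) : ℝ) := by
  have hfix : proj z ∈ Fix := Or.inr ⟨h1, h2⟩
  have hr : (0 : ℝ) < √(5 / 4) := by positivity
  have hlog : Real.log √(5 / 4) = Real.log (5 / 4) / 2 := Real.log_sqrt (by norm_num)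
  have hs1 : Real.sin z.re ^ 2 = 1 := by
    have := Real.sin_sq_add_cos_sq z.re; rw [h1] at this; linarith
  have hs2 : Real.sin z.im ^ 2 = 1 := by
    have := Real.sin_sq_add_cos_sq z.im; rw [h2] at this; linarith
  have hnorm : ∀ v : ℂ, ‖(dFE z : ℂ →L[ℝ] ℂ) v‖ = √(5 / 4) * ‖v‖ := by
    intro v
    have e : (dFE z : ℂ →L[ℝ] ℂ) v = v + dW z v := by rw [dFE_coe]; rfl
    rw [e, dW_apply, h1, h2]
    have h3 : ‖v + (⟨1 / 2 * (0 * 0) * v.re - 1 / 2 * (Real.sin z.re * Real.sin z.im) * v.im,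
        -(1 / 2 * (0 * 0) * v.im) + 1 / 2 * (Real.sin z.re * Real.sin z.im) * v.re⟩ : ℂ)‖ ^ 2 =
        (√(5 / 4) * ‖v‖) ^ 2 := by
      rw [mul_pow, Real.sq_sqrt (by norm_num), Complex.sq_norm, Complex.sq_norm,
        Complex.normSq_apply, Complex.normSq_apply]
      simp only [Complex.add_re, Complex.add_im]
      have h4 : (Real.sin z.re * Real.sin z.im) ^ 2 = 1 := by rw [mul_pow, hs1, hs2, one_mul]
      generalize Real.sin z.re * Real.sin z.im = q at h4 ⊢
      nlinarith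
    exact (pow_left_inj₀ (norm_nonneg _) (by positivity) two_ne_zero).mp h3
  have hnorm' : ∀ v : ℂ, ‖((dFE z).symm : ℂ →L[ℝ] ℂ) v‖ = (√(5 / 4))⁻¹ * ‖v‖ := by
    intro v
    have := hnorm ((dFE z).symm v)
    have e : (dFE z : ℂ →L[ℝ] ℂ) ((dFE z).symm v) = v := (dFE z).apply_symm_apply v
    rw [e] at this
    rw [this]
    have e2 : ((dFE z).symm : ℂ →L[ℝ] ℂ) v = (dFE z).symm v := rfl
    rw [e2]
    field_simp
  refine ⟨1, fun _ => ⊤, fun _ => Real.log √(5 / 4), ⟨?_, ?_, ?_, ?_⟩, ?_⟩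
  · rw [DirectSum.isInternal_submodule_iff_iSupIndep_and_iSup_eq_top]
    refine ⟨?_, by simp⟩
    intro i
    have : ⨆ (j : Fin 1), ⨆ (_ : j ≠ i), (⊤ : Submodule ℝ ℂ) = ⊥ := by
      refine iSup_eq_bot.mpr fun j => iSup_eq_bot.mpr fun hj => absurd (Subsingleton.elim j i) hj
    rw [this]
    exact disjoint_bot_right
  · intro i j _; exact Subsingleton.elim i j
  · intro i u _ hu
    simp_rw [fderiv_F_iter hfix]
    exact growth_of hr (V := Set.univ) (fun _ _ => trivial) (fun v _ => hnorm v) trivial hu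
  · intro i u _ hu
    simp_rw [fderiv_G_iter hfix]
    rw [← Real.log_inv]
    exact growth_of (inv_pos.mpr hr) (V := Set.univ) (fun _ _ => trivial) (fun v _ => hnorm' v)
      trivial hu
  · have hpos : 0 ≤ Real.log (5 / 4) := Real.log_nonneg (by norm_num)
    simp only [Finset.univ_unique, Finset.sum_singleton, finrank_top, Complex.finrank_real_complex]
    rw [hlog, max_eq_left (by linarith)]
    push_cast
    ring

/-- The real axis and the imaginary axis. -/
noncomputable def axis : Fin 2 → Submodule ℝ ℂ :=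
  ![Submodule.span ℝ {1}, Submodule.span ℝ {Complex.I}]

lemma mem_axis0 {v : ℂ} : v ∈ axis 0 ↔ v.im = 0 := by
  show v ∈ Submodule.span ℝ {(1 : ℂ)} ↔ _
  rw [Submodule.mem_span_singleton]
  constructor
  · rintro ⟨a, rfl⟩; simp
  · intro h
    refine ⟨v.re, ?_⟩
    apply Complex.ext <;> simp [h]

lemma mem_axis1 {v : ℂ} : v ∈ axis 1 ↔ v.re = 0 := by
  show v ∈ Submodule.span ℝ {Complex.I} ↔ _
  rw [Submodule.mem_span_singleton]
  constructor
  · rintro ⟨a, rfl⟩; simp
  · intro h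
    refine ⟨v.im, ?_⟩
    apply Complex.ext <;> simp [h]

lemma axis_internal : DirectSum.IsInternal axis := by
  rw [DirectSum.isInternal_submodule_iff_isCompl axis (i := 0) (j := 1) (by decide) (by
    ext i; fin_cases i <;> simp)]
  constructor
  · rw [Submodule.disjoint_def]
    intro x h0 h1
    rw [mem_axis0] at h0
    rw [mem_axis1] at h1
    exact Complex.ext h1 h0
  · rw [codisjoint_iff, eq_top_iff]
    intro x _
    rw [Submodule.mem_sup]
    exact ⟨⟨x.re, 0⟩, mem_axis0.mpr rfl, ⟨0, x.im⟩, mem_axis1.mpr rfl, by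
      apply Complex.ext <;> simp⟩

lemma finrank_axis (i : Fin 2) : Module.finrank ℝ (axis i) = 1 := by
  fin_cases i
  · exact finrank_span_singleton one_ne_zero
  · exact finrank_span_singleton Complex.I_ne_zero

lemma chiPlus_saddle {z : ℂ} (h1 : Real.sin z.re = 0) (h2 : Real.sin z.im = 0) :
    ∃ (k : ℕ) (V : Fin k → Submodule ℝ ℂ) (χ : Fin k → ℝ),
    IsOseledets F G z V χ ∧ Real.log (3 / 2) = ∑ i, max (χ i) 0 * (Module.finrank ℝ (V i) : ℝ) := by
  have hfix : proj z ∈ Fix := Or.inl ⟨h1, h2⟩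
  have hs1 : Real.cos z.re ^ 2 = 1 := by
    have := Real.sin_sq_add_cos_sq z.re; rw [h1] at this; linarith
  have hs2 : Real.cos z.im ^ 2 = 1 := by
    have := Real.sin_sq_add_cos_sq z.im; rw [h2] at this; linarith
  have hP : Real.cos z.re * Real.cos z.im = 1 ∨ Real.cos z.re * Real.cos z.im = -1 := by
    have h4 : (Real.cos z.re * Real.cos z.im) ^ 2 = 1 := by rw [mul_pow, hs1, hs2, one_mul]
    generalize Real.cos z.re * Real.cos z.im = q at h4 ⊢
    have : (q - 1) * (q + 1) = 0 := by ring_nf; linarith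
    rcases mul_eq_zero.mp this with h | h
    · left; linarith
    · right; linarith
  set P := Real.cos z.re * Real.cos z.im with hPdef
  have hP2 : |P| = 1 := by rcases hP with h | h <;> rw [h] <;> simp
  have ha : 0 < 1 + 1 / 2 * P := by rcases hP with h | h <;> rw [h] <;> norm_num
  have hb : 0 < 1 - 1 / 2 * P := by rcases hP with h | h <;> rw [h] <;> norm_num
  have hD : ∀ v : ℂ, (dFE z : ℂ →L[ℝ] ℂ) v =
      ⟨(1 + 1 / 2 * P) * v.re, (1 - 1 / 2 * P) * v.im⟩ := by
    intro v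
    have e : (dFE z : ℂ →L[ℝ] ℂ) v = v + dW z v := by rw [dFE_coe]; rfl
    rw [e, dW_apply, h1, h2, ← hPdef]
    apply Complex.ext
    · simp only [Complex.add_re]; ring
    · simp only [Complex.add_im]; ring
  have hDs : ∀ v : ℂ, ((dFE z).symm : ℂ →L[ℝ] ℂ) v =
      ⟨(1 + 1 / 2 * P)⁻¹ * v.re, (1 - 1 / 2 * P)⁻¹ * v.im⟩ := by
    intro v
    have e2 : ((dFE z).symm : ℂ →L[ℝ] ℂ) v = (dFE z).symm v := rfl
    rw [e2, ContinuousLinearEquiv.symm_apply_eq]
    have := hD ⟨(1 + 1 / 2 * P)⁻¹ * v.re, (1 - 1 / 2 * P)⁻¹ * v.im⟩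
    have e3 : dFE z (⟨(1 + 1 / 2 * P)⁻¹ * v.re, (1 - 1 / 2 * P)⁻¹ * v.im⟩ : ℂ) =
      (dFE z : ℂ →L[ℝ] ℂ) ⟨(1 + 1 / 2 * P)⁻¹ * v.re, (1 - 1 / 2 * P)⁻¹ * v.im⟩ := rfl
    rw [e3, this]
    apply Complex.ext
    · simp only; rw [← mul_assoc, mul_inv_cancel₀ ha.ne', one_mul]
    · simp only; rw [← mul_assoc, mul_inv_cancel₀ hb.ne', one_mul]
  have nre : ∀ a b : ℝ, 0 < a → ‖(⟨a * b, 0⟩ : ℂ)‖ = a * ‖(⟨b, 0⟩ : ℂ)‖ := by
    intro a b ha
    have e1 : (⟨a * b, 0⟩ : ℂ) = ((a * b : ℝ) : ℂ) := by apply Complex.ext <;> simp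
    have e2 : (⟨b, 0⟩ : ℂ) = ((b : ℝ) : ℂ) := by apply Complex.ext <;> simp
    rw [e1, e2, Complex.norm_real, Complex.norm_real, Real.norm_eq_abs, Real.norm_eq_abs, abs_mul,
      abs_of_pos ha]
  have nim : ∀ a b : ℝ, 0 < a → ‖(⟨0, a * b⟩ : ℂ)‖ = a * ‖(⟨0, b⟩ : ℂ)‖ := by
    intro a b ha
    have e1 : (⟨0, a * b⟩ : ℂ) = ((a * b : ℝ) : ℂ) * Complex.I := by apply Complex.ext <;> simp
    have e2 : (⟨0, b⟩ : ℂ) = ((b : ℝ) : ℂ) * Complex.I := by apply Complex.ext <;> simp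
    rw [e1, e2, norm_mul, norm_mul, Complex.norm_real, Complex.norm_real, Complex.norm_I,
      Real.norm_eq_abs, Real.norm_eq_abs, abs_mul, abs_of_pos ha]
    ring
  have v0 : ∀ v : ℂ, v ∈ axis 0 → v = ⟨v.re, 0⟩ := fun v hv => Complex.ext rfl (mem_axis0.mp hv)
  have v1 : ∀ v : ℂ, v ∈ axis 1 → v = ⟨0, v.im⟩ := fun v hv => Complex.ext (mem_axis1.mp hv) rfl
  refine ⟨2, axis, ![Real.log (1 + 1 / 2 * P), Real.log (1 - 1 / 2 * P)], ⟨axis_internal, ?_, ?_, ?_⟩,
    ?_⟩
  · have hne : Real.log (1 + 1 / 2 * P) ≠ Real.log (1 - 1 / 2 * P) := by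
      intro h
      have := Real.log_injOn_pos ha hb h
      have hP0 : P = 0 := by linarith
      rw [hP0] at hP2; simp at hP2
    intro i j hij
    fin_cases i <;> fin_cases j <;> simp at hij ⊢
    · exact hne (by simpa using hij)
    · exact hne (by simpa using hij.symm)
  · intro i u hu hu0
    simp_rw [fderiv_F_iter hfix]
    fin_cases i
    · refine growth_of ha (V := axis 0) (fun v hv => ?_) (fun v hv => ?_) hu hu0
      · rw [SetLike.mem_coe, mem_axis0, hD]
        show (1 - 1 / 2 * P) * v.im = 0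
        rw [mem_axis0.mp hv, mul_zero]
      · rw [hD, mem_axis0.mp hv, mul_zero]
        conv_rhs => rw [v0 v hv]
        exact nre _ _ ha
    · refine growth_of hb (V := axis 1) (fun v hv => ?_) (fun v hv => ?_) hu hu0
      · rw [SetLike.mem_coe, mem_axis1, hD]
        show (1 + 1 / 2 * P) * v.re = 0
        rw [mem_axis1.mp hv, mul_zero]
      · rw [hD, mem_axis1.mp hv, mul_zero]
        conv_rhs => rw [v1 v hv]
        exact nim _ _ hb
  · intro i u hu hu0
    simp_rw [fderiv_G_iter hfix]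
    fin_cases i
    · show Tendsto _ _ (𝓝 (-Real.log (1 + 1 / 2 * P)))
      rw [← Real.log_inv]
      refine growth_of (inv_pos.mpr ha) (V := axis 0) (fun v hv => ?_) (fun v hv => ?_) hu hu0
      · rw [SetLike.mem_coe, mem_axis0, hDs]
        show (1 - 1 / 2 * P)⁻¹ * v.im = 0
        rw [mem_axis0.mp hv, mul_zero]
      · rw [hDs, mem_axis0.mp hv, mul_zero]
        conv_rhs => rw [v0 v hv]
        exact nre _ _ (inv_pos.mpr ha)
    · show Tendsto _ _ (𝓝 (-Real.log (1 - 1 / 2 * P)))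
      rw [← Real.log_inv]
      refine growth_of (inv_pos.mpr hb) (V := axis 1) (fun v hv => ?_) (fun v hv => ?_) hu hu0
      · rw [SetLike.mem_coe, mem_axis1, hDs]
        show (1 + 1 / 2 * P)⁻¹ * v.re = 0
        rw [mem_axis1.mp hv, mul_zero]
      · rw [hDs, mem_axis1.mp hv, mul_zero]
        conv_rhs => rw [v1 v hv]
        exact nim _ _ (inv_pos.mpr hb)
  · have l1 : 0 < Real.log (3 / 2) := Real.log_pos (by norm_num)
    have l2 : Real.log (1 / 2) < 0 := Real.log_neg (by norm_num) (by norm_num)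
    rw [Fin.sum_univ_two, finrank_axis, finrank_axis]
    show Real.log (3 / 2) = max (Real.log (1 + 1 / 2 * P)) 0 * ((1 : ℕ) : ℝ) +
      max (Real.log (1 - 1 / 2 * P)) 0 * ((1 : ℕ) : ℝ)
    rcases hP with h | h
    · rw [h]
      have e1 : (1 + 1 / 2 * 1 : ℝ) = 3 / 2 := by norm_num
      have e2 : (1 - 1 / 2 * 1 : ℝ) = 1 / 2 := by norm_num
      rw [e1, e2, max_eq_left l1.le, max_eq_right l2.le]; simp
    · rw [h]
      have e1 : (1 + 1 / 2 * -1 : ℝ) = 1 / 2 := by norm_num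
      have e2 : (1 - 1 / 2 * -1 : ℝ) = 3 / 2 := by norm_num
      rw [e1, e2, max_eq_left l1.le, max_eq_right l2.le]; simp

/-- The sum of the positive exponents at the fixed points. -/
noncomputable def chi (x : Torus) : ℝ :=
  Real.log (5 / 4) * |sinC x.1 * sinC x.2| + Real.log (3 / 2) * |cosC x.1 * cosC x.2|

lemma isChiPlus_fix {x : Torus} (hx : x ∈ Fix) : IsChiPlus F G x (chi x) := by
  rintro z rfl
  rcases hx with ⟨h1, h2⟩ | ⟨h1, h2⟩
  · have e : chi (proj z) = Real.log (3 / 2) := by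
      have a1 := cos_sq_of_sin h1
      have a2 := cos_sq_of_sin h2
      unfold chi
      rw [h1]
      have : |cosC (proj z).1 * cosC (proj z).2| = 1 := by
        rw [← Real.sqrt_sq_eq_abs, mul_pow, a1, a2]; simp
      rw [this]; simp
    rw [e]
    exact chiPlus_saddle h1 h2
  · have e : chi (proj z) = Real.log (5 / 4) := by
      have h1' : Real.cos z.re = 0 := h1
      have h2' : Real.cos z.im = 0 := h2
      have a1 : Real.sin z.re ^ 2 = 1 := by
        have := Real.sin_sq_add_cos_sq z.re; rw [h1'] at this; linarith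
      have a2 : Real.sin z.im ^ 2 = 1 := by
        have := Real.sin_sq_add_cos_sq z.im; rw [h2'] at this; linarith
      show Real.log (5 / 4) * |Real.sin z.re * Real.sin z.im| +
        Real.log (3 / 2) * |Real.cos z.re * Real.cos z.im| = _
      rw [h1']
      have : |Real.sin z.re * Real.sin z.im| = 1 := by
        rw [← Real.sqrt_sq_eq_abs, mul_pow, a1, a2]; simp
      rw [this]; simp
    rw [e]
    exact chiPlus_source h1 h2

lemma chi_ge {x : Torus} (hx : x ∈ Fix) : Real.log (5 / 4) ≤ chi x := by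
  obtain ⟨z, rfl⟩ := proj_surj x
  have l1 : 0 < Real.log (5 / 4) := Real.log_pos (by norm_num)
  have l2 : Real.log (5 / 4) ≤ Real.log (3 / 2) := Real.log_le_log (by norm_num) (by norm_num)
  rcases hx with ⟨h1, h2⟩ | ⟨h1, h2⟩
  · have a1 := cos_sq_of_sin h1
    have a2 := cos_sq_of_sin h2
    unfold chi
    rw [h1]
    have : |cosC (proj z).1 * cosC (proj z).2| = 1 := by
      rw [← Real.sqrt_sq_eq_abs, mul_pow, a1, a2]; simp
    rw [this]; simp; exact l2
  · have h1' : Real.cos z.re = 0 := h1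
    have h2' : Real.cos z.im = 0 := h2
    have a1 : Real.sin z.re ^ 2 = 1 := by
      have := Real.sin_sq_add_cos_sq z.re; rw [h1'] at this; linarith
    have a2 : Real.sin z.im ^ 2 = 1 := by
      have := Real.sin_sq_add_cos_sq z.im; rw [h2'] at this; linarith
    show _ ≤ Real.log (5 / 4) * |Real.sin z.re * Real.sin z.im| +
      Real.log (3 / 2) * |Real.cos z.re * Real.cos z.im|
    rw [h1']
    have : |Real.sin z.re * Real.sin z.im| = 1 := by
      rw [← Real.sqrt_sq_eq_abs, mul_pow, a1, a2]; simp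
    rw [this]; simp

lemma continuous_chi : Continuous chi := by
  have c1 : Continuous fun x : Torus => sinC x.1 := continuous_sinC.comp continuous_fst
  have c2 : Continuous fun x : Torus => sinC x.2 := continuous_sinC.comp continuous_snd
  have c3 : Continuous fun x : Torus => cosC x.1 := continuous_cosC.comp continuous_fst
  have c4 : Continuous fun x : Torus => cosC x.2 := continuous_cosC.comp continuous_snd
  exact (continuous_const.mul (c1.mul c2).abs).add (continuous_const.mul (c3.mul c4).abs)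

end Pool.Agent.W747.RG
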