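import Mathlib

set_option autoImplicit false

namespace Pool.Agent.W747.RG

open Real

/-- Upper bound for the cosine. -/
lemma cos_le_aux {x : ℝ} (hx : |x| ≤ 1 / 2) : cos x ≤ 1 - 12 / 25 * x ^ 2 := by
  have h1 := Real.cos_bound (x := x) (hx.trans (by norm_num))
  have h2 := (abs_le.mp h1).2
  have h3 : |x| ^ 4 ≤ 1 / 4 * x ^ 2 := by
    have : |x| ^ 4 = |x| ^ 2 * |x| ^ 2 := by ring
    rw [this, sq_abs]
    have h4 : x ^ 2 ≤ 1 / 4 := by
      rw [← sq_abs]; nlinarith [abs_nonneg x]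
    nlinarith [sq_nonneg x]
  nlinarith [sq_nonneg x]

lemma cos_ge_aux {x : ℝ} (hx : |x| ≤ 1 / 2) : 3 / 4 ≤ cos x := by
  have h := Real.one_sub_sq_div_two_le_cos (x := x)
  have : x ^ 2 ≤ 1 / 4 := by rw [← sq_abs]; nlinarith [abs_nonneg x]
  linarith

lemma sinc_bounds {x : ℝ} (hx : |x| ≤ 1 / 2) : 1 - x ^ 2 / 4 ≤ sinc x ∧ sinc x ≤ 1 := by
  rcases eq_or_ne x 0 with rfl | h0
  · simp
  refine ⟨?_, Real.sinc_le_one x⟩
  rw [Real.sinc_of_ne_zero h0]
  rcases lt_or_gt_of_ne h0 with h | h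
  · have h1 := Real.sin_gt_sub_cube (x := -x) (by linarith)
    rw [Real.sin_neg] at h1
    rw [le_div_iff_of_neg h]
    have h2 : x ^ 3 ≤ 0 := by
      have : x ^ 3 = x * x ^ 2 := by ring
      rw [this]; exact mul_nonpos_of_nonpos_of_nonneg h.le (sq_nonneg x)
    nlinarith
  · have h1 := Real.sin_gt_sub_cube (x := x) h
    rw [le_div_iff₀ h]
    have h2 : 0 ≤ x ^ 3 := by positivity
    nlinarith

lemma self_mul_sinc (x : ℝ) : sin x = x * sinc x := by
  rcases eq_or_ne x 0 with rfl | h0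
  · simp
  · rw [Real.sinc_of_ne_zero h0]; field_simp

/-- The factor for the first coordinate. -/
lemma sin_fst (a b : ℝ) : sin (a + 1 / 2 * sin a * cos b) =
    sin a * (cos (1 / 2 * sin a * cos b) + 1 / 2 * (cos a * cos b) * sinc (1 / 2 * sin a * cos b)) := by
  rw [sin_add, self_mul_sinc (1 / 2 * sin a * cos b)]; ring

lemma sin_snd (a b : ℝ) : sin (b - 1 / 2 * cos a * sin b) =
    sin b * (cos (1 / 2 * cos a * sin b) - 1 / 2 * (cos a * cos b) * sinc (1 / 2 * cos a * sin b)) := by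
  rw [sin_sub, self_mul_sinc (1 / 2 * cos a * sin b)]; ring

lemma abs_sc (a b : ℝ) : |1 / 2 * sin a * cos b| ≤ 1 / 2 := by
  rw [abs_mul, abs_mul, abs_of_pos (by norm_num : (0 : ℝ) < 1 / 2)]
  have h1 := Real.abs_sin_le_one a
  have h2 := Real.abs_cos_le_one b
  have h3 : |sin a| * |cos b| ≤ 1 := mul_le_one₀ h1 (abs_nonneg _) h2
  nlinarith

lemma abs_cs (a b : ℝ) : |1 / 2 * cos a * sin b| ≤ 1 / 2 := by
  have := abs_sc b a
  rwa [show 1 / 2 * cos a * sin b = 1 / 2 * sin b * cos a by ring]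

lemma abs_cc (a b : ℝ) : |1 / 2 * (cos a * cos b)| ≤ 1 / 2 := by
  rw [abs_mul, abs_mul, abs_of_pos (by norm_num : (0 : ℝ) < 1 / 2)]
  have h1 := Real.abs_cos_le_one a
  have h2 := Real.abs_cos_le_one b
  have h3 : |cos a| * |cos b| ≤ 1 := mul_le_one₀ h1 (abs_nonneg _) h2
  nlinarith

/-- Positivity of the factor. -/
lemma factor_pos {x p : ℝ} (hx : |x| ≤ 1 / 2) (hp : |p| ≤ 1 / 2) : 0 < cos x + p * sinc x := by
  have h1 := cos_ge_aux hx
  obtain ⟨h2, h3⟩ := sinc_bounds hx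
  have h4 : x ^ 2 ≤ 1 / 4 := by rw [← sq_abs]; nlinarith [abs_nonneg x]
  have h5 : 0 ≤ sinc x := by linarith
  have h6 := (abs_le.mp hp).1
  nlinarith

/-- The product of the two factors. -/
lemma factor_prod_aux {x y p : ℝ} (hx : |x| ≤ 1 / 2) (hy : |y| ≤ 1 / 2) (hp : 0 ≤ p)
    (hp2 : p ≤ 1 / 2) :
    (cos x + p * sinc x) * (cos y - p * sinc y) ≤ 1 - (p ^ 2 + 1 / 5 * x ^ 2 + 1 / 5 * y ^ 2) := by
  have hx1 := cos_le_aux hx
  have hy1 := cos_le_aux hy
  obtain ⟨hx2, hx3⟩ := sinc_bounds hx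
  obtain ⟨hy2, hy3⟩ := sinc_bounds hy
  have hx4 : x ^ 2 ≤ 1 / 4 := by rw [← sq_abs]; nlinarith [abs_nonneg x]
  have hy4 : y ^ 2 ≤ 1 / 4 := by rw [← sq_abs]; nlinarith [abs_nonneg y]
  have hX : cos x + p * sinc x ≤ 1 + p - 12 / 25 * x ^ 2 := by nlinarith
  have hY : cos y - p * sinc y ≤ 1 - p - 7 / 20 * y ^ 2 := by nlinarith [sq_nonneg y]
  have hY0 : 0 ≤ cos y - p * sinc y := by
    have := factor_pos (x := y) (p := -p) hy (by rw [abs_neg, abs_of_nonneg hp]; exact hp2)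
    linarith
  have hX0 : 0 ≤ 1 + p - 12 / 25 * x ^ 2 := by nlinarith
  calc (cos x + p * sinc x) * (cos y - p * sinc y)
      ≤ (1 + p - 12 / 25 * x ^ 2) * (1 - p - 7 / 20 * y ^ 2) :=
        mul_le_mul hX hY hY0 hX0
    _ ≤ 1 - (p ^ 2 + 1 / 5 * x ^ 2 + 1 / 5 * y ^ 2) := by
        nlinarith [sq_nonneg x, sq_nonneg y, mul_nonneg (sq_nonneg x) (sq_nonneg y),
          mul_nonneg hp (sq_nonneg x), mul_nonneg hp (sq_nonneg y),
          mul_nonneg (sub_nonneg.mpr hp2) (sq_nonneg x), mul_nonneg (sub_nonneg.mpr hx4) (sq_nonneg y)]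

lemma factor_prod {x y p : ℝ} (hx : |x| ≤ 1 / 2) (hy : |y| ≤ 1 / 2) (hp : |p| ≤ 1 / 2) :
    (cos x + p * sinc x) * (cos y - p * sinc y) ≤ 1 - (p ^ 2 + 1 / 5 * x ^ 2 + 1 / 5 * y ^ 2) := by
  rcases le_total 0 p with h | h
  · exact factor_prod_aux hx hy h (abs_le.mp hp).2
  · have := factor_prod_aux (x := y) (y := x) (p := -p) hy hx (by linarith)
      (by linarith [(abs_le.mp hp).1])
    nlinarith

/-- `|sin a sin b|` is a strict Lyapunov function. -/
lemma lyap (a b : ℝ) :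
    |sin (a + 1 / 2 * sin a * cos b) * sin (b - 1 / 2 * cos a * sin b)| ≤
      |sin a * sin b| * (1 - ((1 / 2 * (cos a * cos b)) ^ 2 + 1 / 5 * (1 / 2 * sin a * cos b) ^ 2 +
        1 / 5 * (1 / 2 * cos a * sin b) ^ 2)) := by
  rw [sin_fst, sin_snd]
  set x := 1 / 2 * sin a * cos b with hx
  set y := 1 / 2 * cos a * sin b with hy
  set p := 1 / 2 * (cos a * cos b) with hp
  have h1 := abs_sc a b
  have h2 := abs_cs a b
  have h3 := abs_cc a b
  rw [← hx] at h1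
  rw [← hy] at h2
  rw [← hp] at h3
  have h4 := factor_pos h1 h3
  have h5 := factor_pos (x := y) (p := -p) h2 (by rwa [abs_neg])
  have h6 := factor_prod h1 h2 h3
  rw [show sin a * (cos x + p * sinc x) * (sin b * (cos y - p * sinc y)) =
    (sin a * sin b) * ((cos x + p * sinc x) * (cos y - p * sinc y)) by ring, abs_mul]
  refine mul_le_mul_of_nonneg_left ?_ (abs_nonneg _)
  rw [abs_of_nonneg (mul_nonneg h4.le (by linarith))]
  exact h6

/-- Elementary inequality along the invariant lines. -/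
lemma line_ineq {y : ℝ} (hy : |y| ≤ 1 / 2) : y ^ 2 ≤ 2 * y * sin y - (1 - cos y) := by
  have h1 := Real.one_sub_sq_div_two_le_cos (x := y)
  obtain ⟨h2, h3⟩ := sinc_bounds hy
  have h4 : y ^ 2 ≤ 1 / 4 := by rw [← sq_abs]; nlinarith [abs_nonneg y]
  rw [self_mul_sinc y]
  nlinarith [sq_nonneg y, mul_nonneg (sq_nonneg y) (sub_nonneg.mpr h2)]

lemma line_snd (k b : ℝ) (hk : k ^ 2 = 1) :
    (1 / 2 * sin b) ^ 2 ≤ k * cos (b - 1 / 2 * k * sin b) - k * cos b := by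
  have hb : |1 / 2 * sin b| ≤ 1 / 2 := by
    rw [abs_mul, abs_of_pos (by norm_num : (0 : ℝ) < 1 / 2)]
    linarith [Real.abs_sin_le_one b]
  have h := line_ineq hb
  have hk1 : k = 1 ∨ k = -1 := by
    have : (k - 1) * (k + 1) = 0 := by ring_nf; linarith
    rcases mul_eq_zero.mp this with h | h
    · left; linarith
    · right; linarith
  have hc : 0 ≤ 1 - cos (1 / 2 * sin b) := by linarith [Real.cos_le_one (1 / 2 * sin b)]
  have hcb := Real.abs_cos_le_one b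
  rcases hk1 with rfl | rfl
  · rw [mul_one, cos_sub]
    nlinarith [(abs_le.mp hcb).1, (abs_le.mp hcb).2]
  · rw [show b - 1 / 2 * (-1) * sin b = b + 1 / 2 * sin b by ring, cos_add]
    nlinarith [(abs_le.mp hcb).1, (abs_le.mp hcb).2]

end Pool.Agent.W747.RG
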