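import Pool.Agent.W747.RG.Ineq
import Pool.Agent.H576R3.EntDefs

set_option autoImplicit false

open MeasureTheory Filter Topology Function
open scoped ContDiff

namespace Pool.Agent.W747.RG

/-- The circle `ℝ / 2πℤ`. -/
noncomputable abbrev Circ : Type := AddCircle (2 * Real.pi)

/-- The two-torus `(ℝ / 2πℤ)²`. -/
noncomputable abbrev Torus : Type := Circ × Circ

/-- The covering map from the plane `ℂ = ℝ²` to the torus. -/
noncomputable def proj (z : ℂ) : Torus := ((z.re : Circ), (z.im : Circ))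

/-- `f` is a real-analytic diffeomorphism of the torus with inverse `f'`; `F` and `F'` are
real-analytic lifts of `f` and `f'` to the plane. -/
structure IsDiffeo (f f' : Torus → Torus) (F F' : ℂ → ℂ) : Prop where
  left_inv : LeftInverse f' f
  right_inv : RightInverse f' f
  lift : ∀ z, f (proj z) = proj (F z)
  lift' : ∀ z, f' (proj z) = proj (F' z)
  analytic : ContDiff ℝ ω F
  analytic' : ContDiff ℝ ω F'

/-- `(V i, χ i)` is the Oseledets splitting of the plane (the tangent space of the torus at the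
image of `z`) with its characteristic exponents: the plane is the direct sum of the `V i`, the
exponents are distinct, and for `u ≠ 0` in `V i` one has `(1/n) log ‖T f^n u‖ → χ i` as
`n → ± ∞`. -/
structure IsOseledets (F F' : ℂ → ℂ) (z : ℂ) {k : ℕ} (V : Fin k → Submodule ℝ ℂ) (χ : Fin k → ℝ) :
    Prop where
  internal : DirectSum.IsInternal V
  distinct : Injective χ
  forward : ∀ i, ∀ u ∈ V i, u ≠ 0 →
    Tendsto (fun n : ℕ => Real.log ‖fderiv ℝ (F^[n]) z u‖ / n) atTop (𝓝 (χ i))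
  backward : ∀ i, ∀ u ∈ V i, u ≠ 0 →
    Tendsto (fun n : ℕ => Real.log ‖fderiv ℝ (F'^[n]) z u‖ / n) atTop (𝓝 (-χ i))

/-- `χ₊(x) = s`: the sum of the positive characteristic exponents at the point `x` of the torus,
counted with multiplicity, exists and equals `s`. -/
def IsChiPlus (F F' : ℂ → ℂ) (x : Torus) (s : ℝ) : Prop :=
  ∀ z, proj z = x → ∃ (k : ℕ) (V : Fin k → Submodule ℝ ℂ) (χ : Fin k → ℝ),
    IsOseledets F F' z V χ ∧ s = ∑ i, max (χ i) 0 * (Module.finrank ℝ (V i) : ℝ)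

/-- The lift `(a, b) ↦ (a + (1/2) sin a cos b, b - (1/2) cos a sin b)`. -/
noncomputable def F (z : ℂ) : ℂ :=
  ⟨z.re + 1 / 2 * Real.sin z.re * Real.cos z.im, z.im - 1 / 2 * Real.cos z.re * Real.sin z.im⟩

/-- The displacement. -/
noncomputable def W (z : ℂ) : ℂ :=
  ⟨1 / 2 * Real.sin z.re * Real.cos z.im, -(1 / 2 * Real.cos z.re * Real.sin z.im)⟩

lemma F_eq (z : ℂ) : F z = z + W z := by
  apply Complex.ext <;> simp [F, W, sub_eq_add_neg]

/-- The derivative of the displacement. -/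
noncomputable def dW (z : ℂ) : ℂ →L[ℝ] ℂ :=
  (1 / 2 * (Real.cos z.re * Real.cos z.im)) • (Complex.conjCLE : ℂ →L[ℝ] ℂ) +
    (1 / 2 * (Real.sin z.re * Real.sin z.im)) • (Complex.I • ContinuousLinearMap.id ℝ ℂ)

lemma dW_apply (z v : ℂ) : dW z v =
    ⟨1 / 2 * (Real.cos z.re * Real.cos z.im) * v.re - 1 / 2 * (Real.sin z.re * Real.sin z.im) * v.im,
     -(1 / 2 * (Real.cos z.re * Real.cos z.im) * v.im) +
      1 / 2 * (Real.sin z.re * Real.sin z.im) * v.re⟩ := by
  unfold dW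
  generalize 1 / 2 * (Real.cos z.re * Real.cos z.im) = p
  generalize 1 / 2 * (Real.sin z.re * Real.sin z.im) = q
  apply Complex.ext <;> simp <;> ring

/-- The linear isomorphism from `ℝ × ℝ` to `ℂ`. -/
noncomputable def mk2 : ℝ × ℝ →L[ℝ] ℂ := Complex.equivRealProdCLM.symm

lemma mk2_apply (p : ℝ × ℝ) : mk2 p = ⟨p.1, p.2⟩ := by
  apply Complex.ext
  · exact Complex.equivRealProdCLM_symm_apply_re p
  · exact Complex.equivRealProdCLM_symm_apply_im p

lemma hasFDerivAt_W (z : ℂ) : HasFDerivAt W (dW z) z := by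
  have hre : HasFDerivAt (fun z : ℂ => z.re) Complex.reCLM z := Complex.reCLM.hasFDerivAt
  have him : HasFDerivAt (fun z : ℂ => z.im) Complex.imCLM z := Complex.imCLM.hasFDerivAt
  have h1 : HasFDerivAt (fun z : ℂ => 1 / 2 * Real.sin z.re * Real.cos z.im) _ z :=
    ((hre.sin).const_mul (1 / 2)).mul him.cos
  have h2 : HasFDerivAt (fun z : ℂ => -(1 / 2 * Real.cos z.re * Real.sin z.im)) _ z :=
    (((hre.cos).const_mul (1 / 2)).mul him.sin).neg
  have h3 : HasFDerivAt (fun z : ℂ => mk2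
      ((1 / 2 * Real.sin z.re * Real.cos z.im), (-(1 / 2 * Real.cos z.re * Real.sin z.im)))) _ z :=
    mk2.hasFDerivAt.comp z (h1.prodMk h2)
  have h4 : W = fun z : ℂ => mk2
      ((1 / 2 * Real.sin z.re * Real.cos z.im), (-(1 / 2 * Real.cos z.re * Real.sin z.im))) := by
    funext z
    rw [mk2_apply]; rfl
  rw [h4]
  refine h3.congr_fderiv ?_
  ext v
  rw [dW_apply, ContinuousLinearMap.comp_apply, mk2_apply]
  apply Complex.ext <;> simp <;> ring

lemma contDiff_F : ContDiff ℝ ω F := by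
  have h4 : F = fun z : ℂ => mk2
      ((z.re + 1 / 2 * Real.sin z.re * Real.cos z.im),
        (z.im - 1 / 2 * Real.cos z.re * Real.sin z.im)) := by
    funext z
    rw [mk2_apply]; rfl
  rw [h4]
  refine mk2.contDiff.comp ?_
  have hre : ContDiff ℝ ω (fun z : ℂ => z.re) := Complex.reCLM.contDiff
  have him : ContDiff ℝ ω (fun z : ℂ => z.im) := Complex.imCLM.contDiff
  exact (hre.add ((contDiff_const.mul (Real.contDiff_sin.comp hre)).mul
    (Real.contDiff_cos.comp him))).prodMk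
    (him.sub ((contDiff_const.mul (Real.contDiff_cos.comp hre)).mul (Real.contDiff_sin.comp him)))

lemma norm_dW (z : ℂ) : ‖dW z‖ ≤ 1 / 2 := by
  refine ContinuousLinearMap.opNorm_le_bound _ (by norm_num) fun v => ?_
  have h1 : dW z v = ((1 / 2 * (Real.cos z.re * Real.cos z.im) : ℝ) : ℂ) * (starRingEnd ℂ v) +
      ((1 / 2 * (Real.sin z.re * Real.sin z.im) : ℝ) : ℂ) * (Complex.I * v) := by
    rw [dW_apply]
    generalize 1 / 2 * (Real.cos z.re * Real.cos z.im) = p
    generalize 1 / 2 * (Real.sin z.re * Real.sin z.im) = q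
    apply Complex.ext <;> simp <;> ring
  rw [h1]
  have h2 : |Real.cos z.re * Real.cos z.im| + |Real.sin z.re * Real.sin z.im| ≤ 1 := by
    have e1 := Real.cos_sq_add_sin_sq z.re
    have e2 := Real.cos_sq_add_sin_sq z.im
    have : |Real.cos z.re * Real.cos z.im| ≤ (Real.cos z.re ^ 2 + Real.cos z.im ^ 2) / 2 := by
      rw [abs_mul]
      nlinarith [sq_nonneg (|Real.cos z.re| - |Real.cos z.im|), sq_abs (Real.cos z.re),
        sq_abs (Real.cos z.im)]
    have : |Real.sin z.re * Real.sin z.im| ≤ (Real.sin z.re ^ 2 + Real.sin z.im ^ 2) / 2 := by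
      rw [abs_mul]
      nlinarith [sq_nonneg (|Real.sin z.re| - |Real.sin z.im|), sq_abs (Real.sin z.re),
        sq_abs (Real.sin z.im)]
    linarith
  calc _ ≤ ‖((1 / 2 * (Real.cos z.re * Real.cos z.im) : ℝ) : ℂ) * (starRingEnd ℂ v)‖ +
      ‖((1 / 2 * (Real.sin z.re * Real.sin z.im) : ℝ) : ℂ) * (Complex.I * v)‖ := norm_add_le _ _
    _ = 1 / 2 * (|Real.cos z.re * Real.cos z.im| + |Real.sin z.re * Real.sin z.im|) * ‖v‖ := by
      rw [norm_mul, norm_mul, norm_mul, Complex.norm_I, Complex.norm_real, Complex.norm_real,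
        Real.norm_eq_abs, Real.norm_eq_abs, abs_mul (1 / 2), abs_mul (1 / 2),
        abs_of_pos (by norm_num : (0 : ℝ) < 1 / 2), Complex.norm_conj]
      ring
    _ ≤ 1 / 2 * ‖v‖ := by
      refine mul_le_mul_of_nonneg_right ?_ (norm_nonneg _)
      linarith

lemma hasFDerivAt_F (z : ℂ) : HasFDerivAt F (ContinuousLinearMap.id ℝ ℂ + dW z) z := by
  have : F = fun z => z + W z := funext F_eq
  rw [this]
  exact (hasFDerivAt_id z).add (hasFDerivAt_W z)

lemma fderiv_F (z : ℂ) : fderiv ℝ F z = ContinuousLinearMap.id ℝ ℂ + dW z :=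
  (hasFDerivAt_F z).fderiv

lemma lip_W (x y : ℂ) : ‖W x - W y‖ ≤ 1 / 2 * ‖x - y‖ := by
  have := Convex.norm_image_sub_le_of_norm_hasFDerivWithin_le (f := W) (f' := dW) (C := 1 / 2)
    (s := Set.univ) (fun z _ => (hasFDerivAt_W z).hasFDerivWithinAt) (fun z _ => norm_dW z)
    convex_univ (Set.mem_univ y) (Set.mem_univ x)
  exact this

lemma approx_F : ApproximatesLinearOn F ((ContinuousLinearEquiv.refl ℝ ℂ : ℂ ≃L[ℝ] ℂ) : ℂ →L[ℝ] ℂ)
    Set.univ (1 / 2) := by
  intro x _ y _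
  have h : F x - F y - ((ContinuousLinearEquiv.refl ℝ ℂ : ℂ ≃L[ℝ] ℂ) : ℂ →L[ℝ] ℂ) (x - y) =
      W x - W y := by
    rw [F_eq, F_eq]
    show x + W x - (y + W y) - (x - y) = _
    ring
  rw [h]
  simpa using lip_W x y

/-- The lift as a homeomorphism of the plane. -/
noncomputable def FH : ℂ ≃ₜ ℂ :=
  approx_F.toHomeomorph F (Or.inr (by
    have : (‖(((ContinuousLinearEquiv.refl ℝ ℂ).symm : ℂ ≃L[ℝ] ℂ) : ℂ →L[ℝ] ℂ)‖₊) = 1 := by
      have : (((ContinuousLinearEquiv.refl ℝ ℂ).symm : ℂ ≃L[ℝ] ℂ) : ℂ →L[ℝ] ℂ) =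
        ContinuousLinearMap.id ℝ ℂ := rfl
      rw [this]
      ext
      simp
    rw [this]
    norm_num
    ))

@[simp] lemma FH_apply (z : ℂ) : FH z = F z := rfl

/-- The inverse of the lift. -/
noncomputable def G (z : ℂ) : ℂ := FH.symm z

@[simp] lemma G_F (z : ℂ) : G (F z) = z := FH.symm_apply_apply z
@[simp] lemma F_G (z : ℂ) : F (G z) = z := FH.apply_symm_apply z

/-- The derivative of the lift is invertible. -/
noncomputable def dFE (z : ℂ) : ℂ ≃L[ℝ] ℂ :=
  ContinuousLinearEquiv.unitsEquiv ℝ ℂ (Units.oneSub (-(dW z)) (by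
    rw [norm_neg]; exact (norm_dW z).trans_lt (by norm_num)))

lemma dFE_coe (z : ℂ) : (dFE z : ℂ →L[ℝ] ℂ) = ContinuousLinearMap.id ℝ ℂ + dW z := by
  have h : (dFE z : ℂ →L[ℝ] ℂ) = 1 - (-(dW z)) := rfl
  rw [h, sub_neg_eq_add]; rfl

lemma contDiff_G : ContDiff ℝ ω G := by
  refine FH.contDiff_symm (f₀' := dFE) (fun z => ?_) contDiff_F
  rw [dFE_coe]
  exact hasFDerivAt_F z

end Pool.Agent.W747.RG
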