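import Pool.Agent.W747.RG.Tor

set_option autoImplicit false

open MeasureTheory Filter Topology Function
open scoped ContDiff

namespace Pool.Agent.W747.RG

open Pool.Agent.H576R3.Defs

instance : Fact (0 < 2 * Real.pi) := ⟨Real.two_pi_pos⟩

lemma lyapC (x : Torus) :
    |sinC (f x).1 * sinC (f x).2| ≤ |sinC x.1 * sinC x.2| * (1 - ((1 / 2 * (cosC x.1 * cosC x.2)) ^ 2
      + 1 / 5 * (1 / 2 * sinC x.1 * cosC x.2) ^ 2 + 1 / 5 * (1 / 2 * cosC x.1 * sinC x.2) ^ 2)) := by
  obtain ⟨z, rfl⟩ := proj_surj x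
  exact lyap z.re z.im

lemma sin_fst_zero_iff (x : Torus) : sinC (f x).1 = 0 ↔ sinC x.1 = 0 := by
  obtain ⟨z, rfl⟩ := proj_surj x
  show Real.sin (z.re + 1 / 2 * Real.sin z.re * Real.cos z.im) = 0 ↔ Real.sin z.re = 0
  rw [sin_fst, mul_eq_zero]
  have := factor_pos (abs_sc z.re z.im) (abs_cc z.re z.im)
  constructor
  · rintro (h | h)
    · exact h
    · exact absurd h this.ne'
  · exact Or.inl

lemma sin_snd_zero_iff (x : Torus) : sinC (f x).2 = 0 ↔ sinC x.2 = 0 := by
  obtain ⟨z, rfl⟩ := proj_surj x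
  show Real.sin (z.im - 1 / 2 * Real.cos z.re * Real.sin z.im) = 0 ↔ Real.sin z.im = 0
  rw [sin_snd, mul_eq_zero]
  have := factor_pos (p := -(1 / 2 * (Real.cos z.re * Real.cos z.im))) (abs_cs z.re z.im)
    (by rw [abs_neg]; exact abs_cc z.re z.im)
  constructor
  · rintro (h | h)
    · exact h
    · exfalso; linarith
  · exact Or.inl

lemma cos_sq_of_sin {a : Circ} (h : sinC a = 0) : cosC a ^ 2 = 1 := by
  obtain ⟨a, rfl⟩ := QuotientAddGroup.mk_surjective a
  have h' : Real.sin a = 0 := h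
  show Real.cos a ^ 2 = 1
  have := Real.sin_sq_add_cos_sq a
  rw [h'] at this
  linarith

lemma line_sndC {x : Torus} (h : sinC x.1 = 0) :
    (1 / 2 * sinC x.2) ^ 2 ≤ cosC (f x).1 * cosC (f x).2 - cosC x.1 * cosC x.2 := by
  have hk := cos_sq_of_sin h
  obtain ⟨z, rfl⟩ := proj_surj x
  have h1 : (f (proj z)).1 = (z.re : Circ) := by
    show (z.re : Circ) + ((1 / 2 * sinC z.re * cosC z.im : ℝ) : Circ) = _
    have : sinC z.re = 0 := h
    rw [this]; simp
  rw [h1]
  exact line_snd (Real.cos z.re) z.im hk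

lemma line_fstC {x : Torus} (h : sinC x.2 = 0) :
    (1 / 2 * sinC x.1) ^ 2 ≤ -(cosC (f x).1 * cosC (f x).2) - -(cosC x.1 * cosC x.2) := by
  have hk := cos_sq_of_sin h
  obtain ⟨z, rfl⟩ := proj_surj x
  have h1 : (f (proj z)).2 = (z.im : Circ) := by
    show (z.im : Circ) - ((1 / 2 * cosC z.re * sinC z.im : ℝ) : Circ) = _
    have : sinC z.im = 0 := h
    rw [this]; simp
  rw [h1]
  have h2 := line_snd (-Real.cos z.im) z.re (by rw [neg_sq]; exact hk)
  have h3 : cosC (f (proj z)).1 = Real.cos (z.re + 1 / 2 * Real.sin z.re * Real.cos z.im) := rfl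
  rw [h3]
  have h4 : z.re - 1 / 2 * -Real.cos z.im * Real.sin z.re =
    z.re + 1 / 2 * Real.sin z.re * Real.cos z.im := by ring
  rw [h4] at h2
  show (1 / 2 * Real.sin z.re) ^ 2 ≤ -(Real.cos (z.re + 1 / 2 * Real.sin z.re * Real.cos z.im) *
    Real.cos z.im) - -(Real.cos z.re * Real.cos z.im)
  linarith

/-- Every invariant probability measure is supported on the fixed points. -/
lemma ae_fix {ρ : Measure Torus} [IsProbabilityMeasure ρ] (hρ : MeasurePreserving f ρ ρ) :
    ∀ᵐ x ∂ρ, x ∈ Fix := by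
  have c1 : Continuous fun x : Torus => sinC x.1 := continuous_sinC.comp continuous_fst
  have c2 : Continuous fun x : Torus => sinC x.2 := continuous_sinC.comp continuous_snd
  have c3 : Continuous fun x : Torus => cosC x.1 := continuous_cosC.comp continuous_fst
  have c4 : Continuous fun x : Torus => cosC x.2 := continuous_cosC.comp continuous_snd
  -- first step
  have s1 : ∀ᵐ x ∂ρ, -|sinC (f x).1 * sinC (f x).2| = -|sinC x.1 * sinC x.2| := by
    refine ae_eq_of_le hρ (ψ := fun x : Torus => -|sinC x.1 * sinC x.2|) (c1.mul c2).abs.neg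
      (Eventually.of_forall fun x => ?_)
    have h := lyapC x
    have h0 := abs_nonneg (sinC x.1 * sinC x.2)
    show -|sinC x.1 * sinC x.2| ≤ -|sinC (f x).1 * sinC (f x).2|
    nlinarith [sq_nonneg (1 / 2 * (cosC x.1 * cosC x.2)), sq_nonneg (1 / 2 * sinC x.1 * cosC x.2),
      sq_nonneg (1 / 2 * cosC x.1 * sinC x.2), mul_nonneg h0 (sq_nonneg (1 / 2 * (cosC x.1 * cosC x.2))),
      mul_nonneg h0 (sq_nonneg (1 / 2 * sinC x.1 * cosC x.2)),
      mul_nonneg h0 (sq_nonneg (1 / 2 * cosC x.1 * sinC x.2))]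
  -- second step
  have hm1 : MeasurableSet {x : Torus | sinC x.1 = 0} :=
    (isClosed_eq c1 continuous_const).measurableSet
  have hm2 : MeasurableSet {x : Torus | sinC x.2 = 0} :=
    (isClosed_eq c2 continuous_const).measurableSet
  have hp1 : MeasurePreserving f (ρ.restrict {x : Torus | sinC x.1 = 0})
      (ρ.restrict {x : Torus | sinC x.1 = 0}) := by
    have := hρ.restrict_preimage hm1
    have he : f ⁻¹' {x : Torus | sinC x.1 = 0} = {x : Torus | sinC x.1 = 0} := by
      ext x; exact sin_fst_zero_iff x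
    rwa [he] at this
  have hp2 : MeasurePreserving f (ρ.restrict {x : Torus | sinC x.2 = 0})
      (ρ.restrict {x : Torus | sinC x.2 = 0}) := by
    have := hρ.restrict_preimage hm2
    have he : f ⁻¹' {x : Torus | sinC x.2 = 0} = {x : Torus | sinC x.2 = 0} := by
      ext x; exact sin_snd_zero_iff x
    rwa [he] at this
  have s2 := ae_eq_of_le hp1 (ψ := fun x : Torus => cosC x.1 * cosC x.2) (c3.mul c4) (by
    refine (ae_restrict_iff' hm1).mpr (Eventually.of_forall fun x hx => ?_)
    have h := line_sndC (x := x) hx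
    have := sq_nonneg (1 / 2 * sinC x.2)
    show cosC x.1 * cosC x.2 ≤ cosC (f x).1 * cosC (f x).2
    linarith)
  have s3 := ae_eq_of_le hp2 (ψ := fun x : Torus => -(cosC x.1 * cosC x.2)) (c3.mul c4).neg (by
    refine (ae_restrict_iff' hm2).mpr (Eventually.of_forall fun x hx => ?_)
    have h := line_fstC (x := x) hx
    have := sq_nonneg (1 / 2 * sinC x.1)
    show -(cosC x.1 * cosC x.2) ≤ -(cosC (f x).1 * cosC (f x).2)
    linarith)
  have s2' := (ae_restrict_iff' hm1).mp s2
  have s3' := (ae_restrict_iff' hm2).mp s3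
  filter_upwards [s1, s2', s3'] with x h1 h2 h3
  have k1 : sinC x.1 = 0 → sinC x.2 = 0 := by
    intro h
    have a := line_sndC h
    have b : cosC (f x).1 * cosC (f x).2 = cosC x.1 * cosC x.2 := h2 h
    have : (1 / 2 * sinC x.2) ^ 2 ≤ 0 := by linarith
    have := pow_eq_zero_iff (two_ne_zero) |>.mp (le_antisymm this (sq_nonneg _))
    linarith
  have k2 : sinC x.2 = 0 → sinC x.1 = 0 := by
    intro h
    have a := line_fstC h
    have b : -(cosC (f x).1 * cosC (f x).2) = -(cosC x.1 * cosC x.2) := h3 h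
    have : (1 / 2 * sinC x.1) ^ 2 ≤ 0 := by linarith
    have := pow_eq_zero_iff (two_ne_zero) |>.mp (le_antisymm this (sq_nonneg _))
    linarith
  by_cases h4 : sinC x.1 = 0
  · exact Or.inl ⟨h4, k1 h4⟩
  by_cases h5 : sinC x.2 = 0
  · exact Or.inl ⟨k2 h5, h5⟩
  right
  have h6 := lyapC x
  have h7 : |sinC (f x).1 * sinC (f x).2| = |sinC x.1 * sinC x.2| := neg_injective h1
  rw [h7] at h6
  have h8 : 0 < |sinC x.1 * sinC x.2| := abs_pos.mpr (mul_ne_zero h4 h5)
  have h9 : ((1 / 2 * (cosC x.1 * cosC x.2)) ^ 2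
      + 1 / 5 * (1 / 2 * sinC x.1 * cosC x.2) ^ 2 + 1 / 5 * (1 / 2 * cosC x.1 * sinC x.2) ^ 2) ≤ 0 := by
    by_contra hcon
    rw [not_le] at hcon
    nlinarith
  have p1 := sq_nonneg (1 / 2 * (cosC x.1 * cosC x.2))
  have p2 := sq_nonneg (1 / 2 * sinC x.1 * cosC x.2)
  have p3 := sq_nonneg (1 / 2 * cosC x.1 * sinC x.2)
  have q2 : (1 / 2 * sinC x.1 * cosC x.2) ^ 2 = 0 := by linarith
  have q3 : (1 / 2 * cosC x.1 * sinC x.2) ^ 2 = 0 := by linarith
  have r2 := pow_eq_zero_iff (two_ne_zero) |>.mp q2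
  have r3 := pow_eq_zero_iff (two_ne_zero) |>.mp q3
  constructor
  · rcases mul_eq_zero.mp r3 with h | h
    · linarith
    · exact absurd h h5
  · rcases mul_eq_zero.mp r2 with h | h
    · exfalso; apply h4; linarith
    · exact h

lemma iterate_fix {x : Torus} (hx : x ∈ Fix) (n : ℕ) : f^[n] x = x := by
  induction n with
  | zero => rfl
  | succ n ih => rw [Function.iterate_succ_apply, f_fix hx, ih]

/-- The entropy of the invariant measures vanishes. -/
lemma shannon_itin {ρ : Measure Torus} [IsProbabilityMeasure ρ] (hρ : MeasurePreserving f ρ ρ)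
    {k : ℕ} (P : Torus → Fin k) (n : ℕ) : shannon ρ (itin f P (n + 1)) = shannon ρ P := by
  classical
  let c : Fin k → (Fin (n + 1) → Fin k) := fun i _ => i
  have hc : Injective c := fun i j h => congrFun h 0
  have h1 : ∀ w, ρ.real (itin f P (n + 1) ⁻¹' {w}) = ρ.real ((c ∘ P) ⁻¹' {w}) := by
    intro w
    apply measureReal_congr
    filter_upwards [ae_fix hρ] with x hx
    apply propext
    show itin f P (n + 1) x = w ↔ (c ∘ P) x = w
    have : itin f P (n + 1) x = (c ∘ P) x := by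
      funext j
      show P (f^[j] x) = P x
      rw [iterate_fix hx]
    rw [this]
  unfold shannon
  simp_rw [h1]
  symm
  refine Fintype.sum_of_injective c hc _ _ ?_ ?_
  · intro w hw
    have : (c ∘ P) ⁻¹' {w} = ∅ := by
      ext x
      simp only [Set.mem_preimage, Set.mem_singleton_iff, Set.mem_empty_iff_false, iff_false]
      intro h
      exact hw ⟨P x, h⟩
    rw [this]; simp
  · intro i
    congr 2
    ext x
    simp only [Set.mem_preimage, Set.mem_singleton_iff, comp_apply]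
    exact hc.eq_iff.symm

lemma ksEntropy_zero {ρ : Measure Torus} [IsProbabilityMeasure ρ] (hρ : MeasurePreserving f ρ ρ) :
    ksEntropy ρ f ≤ 0 := by
  unfold ksEntropy
  refine iSup_le fun k => iSup_le fun P => iSup_le fun _ => ?_
  have h1 : Tendsto (fun n : ℕ => ((shannon ρ (itin f P n) / n : ℝ) : EReal)) atTop (𝓝 0) := by
    have h2 : Tendsto (fun n : ℕ => shannon ρ (itin f P n) / n) atTop (𝓝 0) := by
      have h3 : Tendsto (fun n : ℕ => shannon ρ P / n) atTop (𝓝 0) :=
        tendsto_const_div_atTop_nhds_zero_nat _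
      refine h3.congr' ?_
      filter_upwards [eventually_ge_atTop 1] with n hn
      obtain ⟨m, rfl⟩ := Nat.exists_eq_succ_of_ne_zero (Nat.one_le_iff_ne_zero.mp hn)
      rw [Nat.succ_eq_add_one, shannon_itin hρ]
    exact (continuous_coe_real_ereal.tendsto 0).comp h2
  exact h1.limsup_eq.le

end Pool.Agent.W747.RG
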