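import Pool.Agent.W747.RG.Map

set_option autoImplicit false

open MeasureTheory Filter Topology Function
open scoped ContDiff

namespace Pool.Agent.W747.RG

noncomputable def sinC : Circ → ℝ := Real.Angle.sin
noncomputable def cosC : Circ → ℝ := Real.Angle.cos

@[simp] lemma sinC_coe (x : ℝ) : sinC (x : Circ) = Real.sin x := rfl
@[simp] lemma cosC_coe (x : ℝ) : cosC (x : Circ) = Real.cos x := rfl

lemma continuous_sinC : Continuous sinC := Real.Angle.continuous_sin
lemma continuous_cosC : Continuous cosC := Real.Angle.continuous_cos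

/-- The diffeomorphism of the torus. -/
noncomputable def f (x : Torus) : Torus :=
  (x.1 + ((1 / 2 * sinC x.1 * cosC x.2 : ℝ) : Circ), x.2 - ((1 / 2 * cosC x.1 * sinC x.2 : ℝ) : Circ))

lemma f_proj (z : ℂ) : f (proj z) = proj (F z) := rfl

lemma proj_surj (x : Torus) : ∃ z, proj z = x := by
  obtain ⟨a, b⟩ := x
  obtain ⟨a, rfl⟩ := QuotientAddGroup.mk_surjective a
  obtain ⟨b, rfl⟩ := QuotientAddGroup.mk_surjective b
  exact ⟨⟨a, b⟩, rfl⟩

lemma proj_eq_iff {z w : ℂ} : proj z = proj w ↔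
    ∃ m n : ℤ, w = z + ⟨m * (2 * Real.pi), n * (2 * Real.pi)⟩ := by
  constructor
  · intro h
    have h1 : (w.re : Circ) = z.re := congrArg Prod.fst h.symm
    have h2 : (w.im : Circ) = z.im := congrArg Prod.snd h.symm
    rw [← sub_eq_zero, ← AddCircle.coe_sub, AddCircle.coe_eq_zero_iff] at h1 h2
    obtain ⟨m, hm⟩ := h1
    obtain ⟨n, hn⟩ := h2
    refine ⟨m, n, ?_⟩
    rw [zsmul_eq_mul] at hm hn
    apply Complex.ext
    · simp only [Complex.add_re]; linarith
    · simp only [Complex.add_im]; linarith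
  · rintro ⟨m, n, rfl⟩
    have e1 : ((m * (2 * Real.pi) : ℝ) : Circ) = 0 := by
      rw [AddCircle.coe_eq_zero_iff]; exact ⟨m, by rw [zsmul_eq_mul]⟩
    have e2 : ((n * (2 * Real.pi) : ℝ) : Circ) = 0 := by
      rw [AddCircle.coe_eq_zero_iff]; exact ⟨n, by rw [zsmul_eq_mul]⟩
    unfold proj
    rw [Complex.add_re, Complex.add_im, AddCircle.coe_add, AddCircle.coe_add, e1, e2, add_zero,
      add_zero]

lemma F_add (z : ℂ) (m n : ℤ) : F (z + ⟨m * (2 * Real.pi), n * (2 * Real.pi)⟩) =
    F z + ⟨m * (2 * Real.pi), n * (2 * Real.pi)⟩ := by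
  apply Complex.ext
  · simp only [F, Complex.add_re, Complex.add_im, Real.sin_add_int_mul_two_pi,
      Real.cos_add_int_mul_two_pi]
    ring
  · simp only [F, Complex.add_re, Complex.add_im, Real.sin_add_int_mul_two_pi,
      Real.cos_add_int_mul_two_pi]
    ring

lemma G_add (z : ℂ) (m n : ℤ) : G (z + ⟨m * (2 * Real.pi), n * (2 * Real.pi)⟩) =
    G z + ⟨m * (2 * Real.pi), n * (2 * Real.pi)⟩ := by
  have h := F_add (G z) m n
  rw [F_G] at h
  rw [← h, G_F]

/-- A lift of a point of the torus. -/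
noncomputable def rep (x : Torus) : ℂ := (proj_surj x).choose

lemma proj_rep (x : Torus) : proj (rep x) = x := (proj_surj x).choose_spec

/-- The inverse of `f`. -/
noncomputable def f' (x : Torus) : Torus := proj (G (rep x))

lemma f'_proj (z : ℂ) : f' (proj z) = proj (G z) := by
  obtain ⟨m, n, h⟩ := proj_eq_iff.mp (proj_rep (proj z)).symm
  unfold f'
  rw [h, G_add]
  exact (proj_eq_iff.mpr ⟨m, n, rfl⟩).symm

lemma isDiffeo : IsDiffeo f f' F G where
  left_inv x := by
    obtain ⟨z, rfl⟩ := proj_surj x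
    rw [f_proj, f'_proj, G_F]
  right_inv x := by
    obtain ⟨z, rfl⟩ := proj_surj x
    rw [f'_proj, f_proj, F_G]
  lift := f_proj
  lift' := f'_proj
  analytic := contDiff_F
  analytic' := contDiff_G

lemma continuous_f : Continuous f := by
  have h1 : Continuous fun x : Torus => sinC x.1 := continuous_sinC.comp continuous_fst
  have h2 : Continuous fun x : Torus => sinC x.2 := continuous_sinC.comp continuous_snd
  have h3 : Continuous fun x : Torus => cosC x.1 := continuous_cosC.comp continuous_fst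
  have h4 : Continuous fun x : Torus => cosC x.2 := continuous_cosC.comp continuous_snd
  have hq : Continuous (fun t : ℝ => (t : Circ)) := AddCircle.continuous_mk' _
  exact (continuous_fst.add (hq.comp ((continuous_const.mul h1).mul h4))).prodMk
    (continuous_snd.sub (hq.comp ((continuous_const.mul h3).mul h2)))

/-- The set of fixed points of `f`. -/
def Fix : Set Torus := {x | (sinC x.1 = 0 ∧ sinC x.2 = 0) ∨ (cosC x.1 = 0 ∧ cosC x.2 = 0)}

lemma f_fix {x : Torus} (hx : x ∈ Fix) : f x = x := by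
  rcases hx with ⟨h1, h2⟩ | ⟨h1, h2⟩
  · apply Prod.ext
    · show x.1 + ((1 / 2 * sinC x.1 * cosC x.2 : ℝ) : Circ) = x.1
      rw [h1]; simp
    · show x.2 - ((1 / 2 * cosC x.1 * sinC x.2 : ℝ) : Circ) = x.2
      rw [h2]; simp
  · apply Prod.ext
    · show x.1 + ((1 / 2 * sinC x.1 * cosC x.2 : ℝ) : Circ) = x.1
      rw [h2]; simp
    · show x.2 - ((1 / 2 * cosC x.1 * sinC x.2 : ℝ) : Circ) = x.2
      rw [h1]; simp

/-- A function which does not decrease along the orbits is invariant almost everywhere. -/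
lemma ae_eq_of_le {X : Type*} [TopologicalSpace X] [CompactSpace X] [MeasurableSpace X]
    [BorelSpace X] {μ : Measure X} [IsFiniteMeasure μ] {T : X → X} (hT : MeasurePreserving T μ μ)
    {ψ : X → ℝ} (hψ : Continuous ψ) (hle : ∀ᵐ x ∂μ, ψ x ≤ ψ (T x)) : ∀ᵐ x ∂μ, ψ (T x) = ψ x := by
  obtain ⟨C, hC⟩ := (isCompact_univ (X := X)).exists_bound_of_continuousOn hψ.continuousOn
  have hint : Integrable ψ μ :=
    Integrable.of_bound hψ.measurable.aestronglyMeasurable C
      (Eventually.of_forall fun x => hC x (Set.mem_univ x))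
  have hint2 : Integrable (fun x => ψ (T x)) μ := hT.integrable_comp_of_integrable hint
  have h1 : ∫ x, ψ (T x) ∂μ = ∫ x, ψ x ∂μ := by
    have h2 : ∫ x, ψ x ∂(μ.map T) = ∫ x, ψ (T x) ∂μ :=
      integral_map hT.measurable.aemeasurable (by
        rw [hT.map_eq]; exact hψ.measurable.aestronglyMeasurable)
    rw [← h2, hT.map_eq]
  have h3 : ∫ x, (ψ (T x) - ψ x) ∂μ = 0 := by
    rw [integral_sub hint2 hint, h1, sub_self]
  have h4 : (0 : X → ℝ) ≤ᵐ[μ] fun x => ψ (T x) - ψ x := by
    filter_upwards [hle] with x hx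
    exact sub_nonneg.mpr hx
  have h5 := (integral_eq_zero_iff_of_nonneg_ae h4 (hint2.sub hint)).mp h3
  filter_upwards [h5] with x hx
  exact sub_eq_zero.mp hx

end Pool.Agent.W747.RG
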